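import Mathlib
import Pool.Agent.H.MP_9ec287_co.NearBip.Core

/-! Counting in regular pairs. -/

set_option linter.unusedSectionVars false

namespace Pool.Agent.H.MP_9ec287_co.NearBip

open Finset Classical

variable {V : Type*} [Fintype V] [DecidableEq V]

/-- density of a pair -/
noncomputable def dn (G : SimpleGraph V) (U T : Finset V) : ℝ :=
  (ee G U T : ℝ) / ((U.card : ℝ) * T.card)

lemma dn_nonneg (G : SimpleGraph V) (U T : Finset V) : 0 ≤ dn G U T := by
  unfold dn; positivity

lemma dn_le_one (G : SimpleGraph V) (U T : Finset V) : dn G U T ≤ 1 := by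
  unfold dn
  apply div_le_one_of_le₀ _ (by positivity)
  exact_mod_cast ee_le_mul G U T

lemma dn_comm (G : SimpleGraph V) (U T : Finset V) : dn G U T = dn G T U := by
  unfold dn; rw [ee_comm, mul_comm]

/-- regular pairs -/
def Rg (G : SimpleGraph V) (ε : ℝ) (U T : Finset V) : Prop :=
  ∀ U' ⊆ U, ∀ T' ⊆ T, ε * U.card ≤ U'.card → ε * T.card ≤ T'.card →
    |(ee G U' T' : ℝ) - dn G U T * (U'.card * T'.card)| ≤ ε * (U'.card * T'.card)

lemma Rg.symm {G : SimpleGraph V} {ε : ℝ} {U T : Finset V} (h : Rg G ε U T) : Rg G ε T U := by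
  intro T' hT' U' hU' h1 h2
  have := h U' hU' T' hT' h2 h1
  rw [ee_comm G T' U', dn_comm G T U, mul_comm (T'.card : ℝ)]
  exact this

/-- the set of vertices of `T` adjacent to `x` -/
noncomputable def nb (G : SimpleGraph V) (x : V) (T : Finset V) : Finset V :=
  T.filter (fun y => G.Adj x y)

lemma nb_card (G : SimpleGraph V) (x : V) (T : Finset V) : (nb G x T).card = dd G x T := rfl

lemma nb_subset (G : SimpleGraph V) (x : V) (T : Finset V) : nb G x T ⊆ T := filter_subset _ _

/-- few vertices of `U` have large degree into a large part `T'` of `T` -/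
lemma Rg.few_high {G : SimpleGraph V} {ε : ℝ} (hε : 0 < ε) {U T : Finset V} (h : Rg G ε U T)
    {T' : Finset V} (hT' : T' ⊆ T) (hc : ε * T.card ≤ T'.card) :
    ((U.filter (fun x => (dn G U T + ε) * T'.card < dd G x T')).card : ℝ) ≤ ε * U.card := by
  set B := U.filter (fun x => (dn G U T + ε) * T'.card < dd G x T') with hB
  by_contra hcon
  push Not at hcon
  have h1 := h B (filter_subset _ _) T' hT' hcon.le hc
  have hne : B.Nonempty := by
    rw [← card_pos]
    by_contra h0
    have : B.card = 0 := by omega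
    rw [this] at hcon
    have : (0:ℝ) ≤ ε * U.card := by positivity
    simp at hcon
    linarith
  have h2 : (dn G U T + ε) * (B.card * T'.card) < ee G B T' := by
    have h3 : ((ee G B T' : ℕ) : ℝ) = ∑ x ∈ B, (dd G x T' : ℝ) := by unfold ee; push_cast; rfl
    rw [h3]
    calc (dn G U T + ε) * (B.card * T'.card) = ∑ x ∈ B, (dn G U T + ε) * T'.card := by
          rw [sum_const, nsmul_eq_mul]; ring
      _ < ∑ x ∈ B, (dd G x T' : ℝ) := sum_lt_sum_of_nonempty hne (fun x hx => (mem_filter.mp hx).2)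
  have h4 := (abs_le.mp h1).2
  linarith

/-- few vertices of `U` have small degree into `T` -/
lemma Rg.few_low {G : SimpleGraph V} {ε : ℝ} (hε : 0 < ε) {U T : Finset V} (h : Rg G ε U T)
    {T' : Finset V} (hT' : T' ⊆ T) (hc : ε * T.card ≤ T'.card) :
    ((U.filter (fun x => (dd G x T' : ℝ) < (dn G U T - ε) * T'.card)).card : ℝ) ≤ ε * U.card := by
  set B := U.filter (fun x => (dd G x T' : ℝ) < (dn G U T - ε) * T'.card) with hB
  by_contra hcon
  push Not at hcon
  have h1 := h B (filter_subset _ _) T' hT' hcon.le hc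
  have hne : B.Nonempty := by
    rw [← card_pos]
    by_contra h0
    have : B.card = 0 := by omega
    rw [this] at hcon
    have : (0:ℝ) ≤ ε * U.card := by positivity
    simp at hcon
    linarith
  have h2 : (ee G B T' : ℝ) < (dn G U T - ε) * (B.card * T'.card) := by
    have h3 : ((ee G B T' : ℕ) : ℝ) = ∑ x ∈ B, (dd G x T' : ℝ) := by unfold ee; push_cast; rfl
    rw [h3]
    calc ∑ x ∈ B, (dd G x T' : ℝ) < ∑ x ∈ B, (dn G U T - ε) * T'.card :=
          sum_lt_sum_of_nonempty hne (fun x hx => (mem_filter.mp hx).2)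
      _ = (dn G U T - ε) * (B.card * T'.card) := by
          rw [sum_const, nsmul_eq_mul]; ring
  have h4 := (abs_le.mp h1).1
  linarith

/-- a sum over `U` bounded on typical and atypical elements -/
lemma sum_typ {U B : Finset V} {f : V → ℝ} {a b θ : ℝ} (hB : (B.card : ℝ) ≤ θ * U.card)
    (ha : 0 ≤ a) (hb : 0 ≤ b) (h1 : ∀ x ∈ U, x ∉ B → f x ≤ a) (h2 : ∀ x ∈ U, f x ≤ b) :
    ∑ x ∈ U, f x ≤ (a + θ * b) * U.card := by
  have h3 : ∀ x ∈ U, f x ≤ a + if x ∈ B then b else 0 := by
    intro x hx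
    by_cases hxB : x ∈ B
    · simp only [hxB, if_true]; linarith [h2 x hx]
    · simp only [hxB, if_false, add_zero]; exact h1 x hx hxB
  calc ∑ x ∈ U, f x ≤ ∑ x ∈ U, (a + if x ∈ B then b else 0) := sum_le_sum h3
    _ = a * U.card + ∑ x ∈ U, (if x ∈ B then b else 0) := by
        rw [sum_add_distrib, sum_const, nsmul_eq_mul]; ring
    _ ≤ a * U.card + B.card * b := by
        apply add_le_add_right
        rw [← sum_filter, sum_const, nsmul_eq_mul]
        apply mul_le_mul_of_nonneg_right _ hb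
        exact_mod_cast card_le_card (fun x hx => (mem_filter.mp hx).2)
    _ ≤ a * U.card + (θ * U.card) * b := by
        apply add_le_add_right
        exact mul_le_mul_of_nonneg_right hB hb
    _ = (a + θ * b) * U.card := by ring

/-- triangle counting, upper bound -/
theorem tri_upper {G : SimpleGraph V} {ε : ℝ} (hε : 0 < ε) (hε1 : ε ≤ 1) {U T Z : Finset V}
    (h1 : Rg G ε U T) (h2 : Rg G ε U Z) (h3 : Rg G ε T Z) :
    ∑ x ∈ U, (ee G (nb G x T) (nb G x Z) : ℝ) ≤
      (dn G U T * dn G U Z * dn G T Z + 10 * ε) * (U.card * T.card * Z.card) := by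
  set B := U.filter (fun x => (dn G U T + ε) * T.card < dd G x T) ∪
    U.filter (fun x => (dn G U Z + ε) * Z.card < dd G x Z) with hB
  have hBc : (B.card : ℝ) ≤ (2 * ε) * U.card := by
    have e1 := h1.few_high hε (Subset.refl T) (by nlinarith [Nat.cast_nonneg (α := ℝ) T.card])
    have e2 := h2.few_high hε (Subset.refl Z) (by nlinarith [Nat.cast_nonneg (α := ℝ) Z.card])
    have e3 : (B.card : ℝ) ≤ (U.filter (fun x => (dn G U T + ε) * T.card < dd G x T)).card +
      (U.filter (fun x => (dn G U Z + ε) * Z.card < dd G x Z)).card := by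
      exact_mod_cast card_union_le _ _
    linarith
  set α := dn G U T with hα
  set β := dn G U Z with hβ
  set γ := dn G T Z with hγ
  have hα0 : 0 ≤ α := dn_nonneg _ _ _
  have hβ0 : 0 ≤ β := dn_nonneg _ _ _
  have hγ0 : 0 ≤ γ := dn_nonneg _ _ _
  have hα1 : α ≤ 1 := dn_le_one _ _ _
  have hβ1 : β ≤ 1 := dn_le_one _ _ _
  have hγ1 : γ ≤ 1 := dn_le_one _ _ _
  have hT0 : (0:ℝ) ≤ T.card := Nat.cast_nonneg _
  have hZ0 : (0:ℝ) ≤ Z.card := Nat.cast_nonneg _
  have key := sum_typ (U := U) (B := B) (f := fun x => (ee G (nb G x T) (nb G x Z) : ℝ))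
    (a := ((γ + ε) * ((α + ε) * (β + ε)) + ε) * (T.card * Z.card)) (b := T.card * Z.card)
    (θ := 2 * ε) hBc (by positivity) (by positivity) ?_ ?_
  · refine key.trans ?_
    have e : (γ + ε) * ((α + ε) * (β + ε)) + ε + 2 * ε ≤ α * β * γ + 10 * ε := by
      have : (γ + ε) * ((α + ε) * (β + ε)) = α * β * γ + ε * (α * β + γ * (α + β) + ε * (α + β + γ) + ε^2) := by ring
      rw [this]
      have h5 : α * β ≤ 1 := mul_le_one₀ hα1 hβ0 hβ1
      have h6 : γ * (α + β) ≤ 2 := by nlinarith
      have h7 : ε * (α + β + γ) ≤ 3 := by nlinarith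
      have h8 : ε^2 ≤ 1 := by nlinarith
      nlinarith
    calc (((γ + ε) * ((α + ε) * (β + ε)) + ε) * (T.card * Z.card) + 2 * ε * (T.card * Z.card)) * U.card
        = ((γ + ε) * ((α + ε) * (β + ε)) + ε + 2 * ε) * (U.card * T.card * Z.card) := by ring
      _ ≤ _ := mul_le_mul_of_nonneg_right e (by positivity)
  · intro x hx hxB
    rw [hB, mem_union, not_or, mem_filter, mem_filter, not_and, not_and] at hxB
    have e1 := hxB.1 hx
    have e2 := hxB.2 hx
    push Not at e1 e2
    change (ee G (nb G x T) (nb G x Z) : ℝ) ≤ _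
    by_cases hc1 : ε * T.card ≤ (nb G x T).card
    · by_cases hc2 : ε * Z.card ≤ (nb G x Z).card
      · have e3 := (abs_le.mp (h3 (nb G x T) (nb_subset _ _ _) (nb G x Z) (nb_subset _ _ _) hc1 hc2)).2
        rw [nb_card, nb_card] at e3
        have e4 : (ee G (nb G x T) (nb G x Z) : ℝ) ≤ (γ + ε) * (dd G x T * dd G x Z) := by linarith
        have e5 : (dd G x T : ℝ) * dd G x Z ≤ ((α + ε) * T.card) * ((β + ε) * Z.card) := by
          gcongr
        have e6 : (γ + ε) * ((dd G x T : ℝ) * dd G x Z) ≤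
            (γ + ε) * (((α + ε) * T.card) * ((β + ε) * Z.card)) :=
          mul_le_mul_of_nonneg_left e5 (by positivity)
        have e7 : 0 ≤ ε * (T.card * Z.card : ℝ) := by positivity
        linarith
      · push Not at hc2
        have e3 : (ee G (nb G x T) (nb G x Z) : ℝ) ≤ (T.card : ℝ) * (nb G x Z).card := by
          have := ee_le_mul G (nb G x T) (nb G x Z)
          have h4 : (nb G x T).card ≤ T.card := card_le_card (nb_subset _ _ _)
          exact_mod_cast this.trans (Nat.mul_le_mul_right _ h4)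
        have e4 : (T.card : ℝ) * (nb G x Z).card ≤ T.card * (ε * Z.card) :=
          mul_le_mul_of_nonneg_left hc2.le hT0
        have e5 : 0 ≤ (γ + ε) * ((α + ε) * (β + ε)) * (T.card * Z.card : ℝ) := by positivity
        linarith
    · push Not at hc1
      have e3 : (ee G (nb G x T) (nb G x Z) : ℝ) ≤ ((nb G x T).card : ℝ) * Z.card := by
        have := ee_le_mul G (nb G x T) (nb G x Z)
        have h4 : (nb G x Z).card ≤ Z.card := card_le_card (nb_subset _ _ _)
        exact_mod_cast this.trans (Nat.mul_le_mul_left _ h4)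
      have e4 : ((nb G x T).card : ℝ) * Z.card ≤ (ε * T.card) * Z.card :=
        mul_le_mul_of_nonneg_right hc1.le hZ0
      have e5 : 0 ≤ (γ + ε) * ((α + ε) * (β + ε)) * (T.card * Z.card : ℝ) := by positivity
      linarith
  · intro x _
    change (ee G (nb G x T) (nb G x Z) : ℝ) ≤ _
    have h0 := ee_mono G (nb_subset G x T) (nb_subset G x Z)
    exact_mod_cast h0.trans (ee_le_mul G T Z)

/-- number of closed walks `x y x' y'` with `x, x' ∈ U`, `y, y' ∈ T` -/
noncomputable def c4 (G : SimpleGraph V) (U T : Finset V) : ℕ :=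
  ∑ x ∈ U, ∑ x' ∈ U, (dd G x' (nb G x T))^2

/-- the number of 4-cycles in a regular pair -/
theorem c4_upper {G : SimpleGraph V} {ε : ℝ} (hε : 0 < ε) (hε1 : ε ≤ 1) {U T : Finset V}
    (h : Rg G ε U T) :
    (c4 G U T : ℝ) ≤ (dn G U T ^ 4 + 18 * ε) * (U.card^2 * T.card^2) := by
  set α := dn G U T with hα
  have hα0 : 0 ≤ α := dn_nonneg _ _ _
  have hα1 : α ≤ 1 := dn_le_one _ _ _
  have hT0 : (0:ℝ) ≤ T.card := Nat.cast_nonneg _
  have hU0 : (0:ℝ) ≤ U.card := Nat.cast_nonneg _
  have hcast : (c4 G U T : ℝ) = ∑ x ∈ U, ∑ x' ∈ U, ((dd G x' (nb G x T) : ℝ))^2 := by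
    unfold c4; push_cast; rfl
  rw [hcast]
  set B := U.filter (fun x => (dn G U T + ε) * T.card < dd G x T) with hB
  have hBc : (B.card : ℝ) ≤ ε * U.card :=
    h.few_high hε (Subset.refl T) (by nlinarith [Nat.cast_nonneg (α := ℝ) T.card])
  have htriv : ∀ x x', ((dd G x' (nb G x T) : ℝ))^2 ≤ T.card^2 := by
    intro x x'
    have : (dd G x' (nb G x T) : ℝ) ≤ T.card := by
      exact_mod_cast (dd_le_card _ _ _).trans (card_le_card (nb_subset _ _ _))
    exact pow_le_pow_left₀ (Nat.cast_nonneg _) this 2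
  have key := sum_typ (U := U) (B := B) (f := fun x => ∑ x' ∈ U, ((dd G x' (nb G x T) : ℝ))^2)
    (a := (((α + ε)^4 + ε^2) * T.card^2 + ε * T.card^2) * U.card)
    (b := T.card^2 * U.card) (θ := ε) hBc (by positivity) (by positivity) ?_ ?_
  · refine key.trans ?_
    have e : (α + ε)^4 + ε^2 + ε + ε ≤ α^4 + 18 * ε := by
      have : (α + ε)^4 = α^4 + ε * (4 * α^3 + 6 * α^2 * ε + 4 * α * ε^2 + ε^3) := by ring
      rw [this]
      have g1 : α^3 ≤ 1 := pow_le_one₀ hα0 hα1
      have g2 : α^2 * ε ≤ 1 := mul_le_one₀ (pow_le_one₀ hα0 hα1) hε.le hε1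
      have g3 : α * ε^2 ≤ 1 := mul_le_one₀ hα1 (by positivity) (pow_le_one₀ hε.le hε1)
      have g4 : ε^3 ≤ 1 := pow_le_one₀ hε.le hε1
      have g5 : ε^2 ≤ ε := by nlinarith
      nlinarith
    calc ((((α + ε)^4 + ε^2) * T.card^2 + ε * T.card^2) * U.card + ε * (T.card^2 * U.card)) * U.card
        = ((α + ε)^4 + ε^2 + ε + ε) * (U.card^2 * T.card^2) := by ring
      _ ≤ _ := mul_le_mul_of_nonneg_right e (by positivity)
  · intro x hx hxB
    rw [hB, mem_filter, not_and] at hxB
    have e1 := hxB hx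
    push Not at e1
    change ∑ x' ∈ U, ((dd G x' (nb G x T) : ℝ))^2 ≤ _
    by_cases hc1 : ε * T.card ≤ (nb G x T).card
    · have hB' := h.few_high hε (nb_subset G x T) hc1
      refine sum_typ hB' (by positivity) (by positivity) ?_ (fun x' _ => htriv x x')
      intro x' hx' hxB'
      rw [mem_filter, not_and] at hxB'
      have e2 := hxB' hx'
      push Not at e2
      have e3 : (dd G x' (nb G x T) : ℝ) ≤ (α + ε) * ((α + ε) * T.card) :=
        e2.trans (mul_le_mul_of_nonneg_left e1 (by positivity))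
      calc ((dd G x' (nb G x T) : ℝ))^2 ≤ ((α + ε) * ((α + ε) * T.card))^2 :=
            pow_le_pow_left₀ (Nat.cast_nonneg _) e3 2
        _ = (α + ε)^4 * T.card^2 := by ring
        _ ≤ ((α + ε)^4 + ε^2) * T.card^2 := by
          apply mul_le_mul_of_nonneg_right _ (by positivity)
          have : 0 ≤ ε^2 := by positivity
          linarith
    · push Not at hc1
      have e2 : ∀ x' ∈ U, ((dd G x' (nb G x T) : ℝ))^2 ≤ ((α + ε)^4 + ε^2) * T.card^2 + ε * T.card^2 := by
        intro x' _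
        have e3 : (dd G x' (nb G x T) : ℝ) ≤ ε * T.card :=
          le_trans (by exact_mod_cast dd_le_card _ _ _) hc1.le
        calc ((dd G x' (nb G x T) : ℝ))^2 ≤ (ε * T.card)^2 := pow_le_pow_left₀ (Nat.cast_nonneg _) e3 2
          _ = ε^2 * T.card^2 := by ring
          _ ≤ ((α + ε)^4 + ε^2) * T.card^2 + ε * T.card^2 := by
            have g1 : 0 ≤ (α + ε)^4 * (T.card:ℝ)^2 := by positivity
            have g2 : 0 ≤ ε * (T.card:ℝ)^2 := by positivity
            linarith
      calc ∑ x' ∈ U, ((dd G x' (nb G x T) : ℝ))^2 ≤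
            ∑ x' ∈ U, (((α + ε)^4 + ε^2) * T.card^2 + ε * T.card^2) := sum_le_sum e2
        _ = _ := by rw [sum_const, nsmul_eq_mul]; ring
  · intro x _
    change ∑ x' ∈ U, ((dd G x' (nb G x T) : ℝ))^2 ≤ _
    calc ∑ x' ∈ U, ((dd G x' (nb G x T) : ℝ))^2 ≤ ∑ x' ∈ U, (T.card : ℝ)^2 :=
          sum_le_sum (fun x' _ => htriv x x')
      _ = T.card^2 * U.card := by rw [sum_const, nsmul_eq_mul]; ring

end Pool.Agent.H.MP_9ec287_co.NearBip
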