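import Mathlib
import Pool.Agent.H.MP_9ec287_co.RegStep.Count

/-! Counting 4-cycles together with a common neighbour. -/

set_option linter.unusedSectionVars false

namespace Pool.Agent.H.MP_9ec287_co.NearBip

open Finset Classical

variable {V : Type*} [Fintype V] [DecidableEq V]

lemma dd_nb (G : SimpleGraph V) (x x' : V) (T : Finset V) :
    dd G x' (nb G x T) = ∑ y ∈ T, if G.Adj x y ∧ G.Adj x' y then 1 else 0 := by
  unfold dd nb
  rw [filter_filter, card_filter]

lemma c4_card (G : SimpleGraph V) (U T : Finset V) :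
    c4 G U T = (((U ×ˢ U) ×ˢ (T ×ˢ T)).filter (fun p : (V × V) × (V × V) =>
      (G.Adj p.1.1 p.2.1 ∧ G.Adj p.1.2 p.2.1) ∧ (G.Adj p.1.1 p.2.2 ∧ G.Adj p.1.2 p.2.2))).card := by
  rw [card_filter, sum_product, sum_product]
  unfold c4
  apply sum_congr rfl; intro x _
  apply sum_congr rfl; intro x' _
  rw [sum_product, dd_nb, sq, sum_mul_sum]
  apply sum_congr rfl; intro y _
  apply sum_congr rfl; intro y' _
  dsimp only
  by_cases h1 : G.Adj x y ∧ G.Adj x' y <;> by_cases h2 : G.Adj x y' ∧ G.Adj x' y' <;> simp [h1, h2]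

/-- Sidorenko's inequality for the 4-cycle -/
lemma c4_lower (G : SimpleGraph V) (U T : Finset V) :
    (ee G U T)^4 ≤ (U.card^2 * T.card^2) * c4 G U T := by
  have h1 : (∑ x ∈ U, ∑ x' ∈ U, dd G x' (nb G x T))^2 ≤ U.card^2 * c4 G U T := by
    have h := @sq_sum_le_card_mul_sum_sq (V × V) ℕ _ _ _ _ (U ×ˢ U) (fun p => dd G p.2 (nb G p.1 T))
    rw [sum_product, sum_product, card_product] at h
    calc _ ≤ _ := h
      _ = _ := by unfold c4; simp only [Nat.cast_id]; ring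
  have h2 : (ee G U T)^2 ≤ T.card * ∑ x ∈ U, ∑ x' ∈ U, dd G x' (nb G x T) := by
    have h3 : ee G U T = ∑ y ∈ T, ∑ x ∈ U, if G.Adj x y then 1 else 0 := by
      unfold ee
      simp_rw [dd_eq_sum]
      rw [sum_comm]
    have h4 : ∑ x ∈ U, ∑ x' ∈ U, dd G x' (nb G x T) =
        ∑ y ∈ T, (∑ x ∈ U, if G.Adj x y then 1 else 0)^2 := by
      have e1 : ∀ x ∈ U, ∑ x' ∈ U, dd G x' (nb G x T) =
          ∑ y ∈ T, ∑ x' ∈ U, (if G.Adj x y then 1 else 0) * (if G.Adj x' y then 1 else 0) := by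
        intro x _
        rw [sum_comm]
        apply sum_congr rfl; intro x' _
        rw [dd_nb]
        apply sum_congr rfl; intro y _
        by_cases h5 : G.Adj x y <;> by_cases h6 : G.Adj x' y <;> simp [h5, h6]
      rw [sum_congr rfl e1, sum_comm]
      apply sum_congr rfl; intro y _
      rw [sq, sum_mul_sum]
    rw [h3, h4]
    exact sq_sum_le_card_mul_sum_sq
  calc (ee G U T)^4 = ((ee G U T)^2)^2 := by ring
    _ ≤ (T.card * ∑ x ∈ U, ∑ x' ∈ U, dd G x' (nb G x T))^2 := Nat.pow_le_pow_left h2 2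
    _ = T.card^2 * (∑ x ∈ U, ∑ x' ∈ U, dd G x' (nb G x T))^2 := by ring
    _ ≤ T.card^2 * (U.card^2 * c4 G U T) := Nat.mul_le_mul_left _ h1
    _ = _ := by ring

/-- 4-cycles with a common neighbour in `Z` -/
noncomputable def kk (G : SimpleGraph V) (U T Z : Finset V) : ℕ :=
  ∑ z ∈ Z, c4 G (nb G z U) (nb G z T)

lemma prod8 {a b g ε : ℝ} (ha : ε ≤ a) (hb : ε ≤ b) (hg : ε ≤ g) (ha1 : a ≤ 1) (hb1 : b ≤ 1)
    (hg1 : g ≤ 1) (hε : 0 < ε) (hε1 : 2 * ε ≤ 1) :
    a^4 * b^2 * g^2 - 10 * ε ≤ (1 - 2 * ε) * ((a - ε)^4 * ((b - ε)^2 * (g - ε)^2)) := by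
  have step : ∀ x y u v : ℝ, 0 ≤ x → x ≤ 1 → 0 ≤ y → y ≤ 1 → 0 ≤ u → u ≤ x → 0 ≤ v → v ≤ y →
      x * y - u * v ≤ (x - u) + (y - v) := by
    intro x y u v hx hx1 hy hy1 hu hux hv hvy
    nlinarith
  have ha0 : 0 ≤ a - ε := by linarith
  have hb0 : 0 ≤ b - ε := by linarith
  have hg0 : 0 ≤ g - ε := by linarith
  have a0 : 0 ≤ a := by linarith
  have b0 : 0 ≤ b := by linarith
  have g0 : 0 ≤ g := by linarith
  have sq1 : ∀ x : ℝ, 0 ≤ x - ε → 0 ≤ x → x ≤ 1 → x^2 - (x - ε)^2 ≤ 2 * ε := by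
    intro x h1 h2 h3
    nlinarith
  have qa := sq1 a ha0 a0 ha1
  have qb := sq1 b hb0 b0 hb1
  have qg := sq1 g hg0 g0 hg1
  have le1 : ∀ x : ℝ, 0 ≤ x → x ≤ 1 → x^2 ≤ 1 := fun x h1 h2 => pow_le_one₀ h1 h2
  have sle : ∀ x : ℝ, 0 ≤ x - ε → (x - ε)^2 ≤ x^2 := fun x h1 => pow_le_pow_left₀ h1 (by linarith) 2
  have q4 : a^4 - (a - ε)^4 ≤ 4 * ε := by
    have h := step (a^2) (a^2) ((a-ε)^2) ((a-ε)^2) (by positivity) (le1 a a0 ha1) (by positivity)
      (le1 a a0 ha1) (by positivity) (sle a ha0) (by positivity) (sle a ha0)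
    have e1 : a^4 = a^2 * a^2 := by ring
    have e2 : (a-ε)^4 = (a-ε)^2 * (a-ε)^2 := by ring
    rw [e1, e2]; linarith
  have qbg : b^2 * g^2 - (b-ε)^2 * (g-ε)^2 ≤ 4 * ε := by
    have h := step (b^2) (g^2) ((b-ε)^2) ((g-ε)^2) (by positivity) (le1 b b0 hb1) (by positivity)
      (le1 g g0 hg1) (by positivity) (sle b hb0) (by positivity) (sle g hg0)
    linarith
  have bgle : b^2 * g^2 ≤ 1 := mul_le_one₀ (le1 b b0 hb1) (by positivity) (le1 g g0 hg1)
  have bgle2 : (b-ε)^2 * (g-ε)^2 ≤ b^2 * g^2 := mul_le_mul (sle b hb0) (sle g hg0) (by positivity) (by positivity)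
  have a4le : a^4 ≤ 1 := pow_le_one₀ a0 ha1
  have a4le2 : (a-ε)^4 ≤ a^4 := pow_le_pow_left₀ ha0 (by linarith) 4
  have h8 := step (a^4) (b^2 * g^2) ((a-ε)^4) ((b-ε)^2 * (g-ε)^2) (by positivity) a4le (by positivity)
    bgle (by positivity) a4le2 (by positivity) bgle2
  have hP : (a-ε)^4 * ((b-ε)^2 * (g-ε)^2) ≤ 1 :=
    mul_le_one₀ (a4le2.trans a4le) (by positivity) (bgle2.trans bgle)
  have hP0 : 0 ≤ (a-ε)^4 * ((b-ε)^2 * (g-ε)^2) := by positivity
  have e3 : a^4 * b^2 * g^2 = a^4 * (b^2 * g^2) := by ring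
  rw [e3]
  nlinarith

/-- lower bound for the number of 4-cycles with a common neighbour in a regular triple -/
theorem kk_lower {G : SimpleGraph V} {ε : ℝ} (hε : 0 < ε) (hε1 : 2 * ε ≤ 1) {U T Z : Finset V}
    (h1 : Rg G ε U T) (h2 : Rg G ε Z U) (h3 : Rg G ε Z T) (hα : ε ≤ dn G U T)
    (hβ : 2 * ε ≤ dn G Z U) (hγ : 2 * ε ≤ dn G Z T) :
    (dn G U T ^ 4 * dn G Z U ^ 2 * dn G Z T ^ 2 - 10 * ε) * (U.card^2 * T.card^2 * Z.card) ≤
      kk G U T Z := by
  set α := dn G U T with hαd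
  set β := dn G Z U with hβd
  set γ := dn G Z T with hγd
  have hα1 : α ≤ 1 := dn_le_one _ _ _
  have hβ1 : β ≤ 1 := dn_le_one _ _ _
  have hγ1 : γ ≤ 1 := dn_le_one _ _ _
  have hT0 : (0:ℝ) ≤ T.card := Nat.cast_nonneg _
  have hU0 : (0:ℝ) ≤ U.card := Nat.cast_nonneg _
  have hZ0 : (0:ℝ) ≤ Z.card := Nat.cast_nonneg _
  set B := Z.filter (fun x => (dd G x U : ℝ) < (dn G Z U - ε) * U.card) ∪
    Z.filter (fun x => (dd G x T : ℝ) < (dn G Z T - ε) * T.card) with hB
  have hBc : (B.card : ℝ) ≤ (2 * ε) * Z.card := by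
    have e1 := h2.few_low hε (Subset.refl U) (by nlinarith)
    have e2 := h3.few_low hε (Subset.refl T) (by nlinarith)
    have e3 : (B.card : ℝ) ≤ (Z.filter (fun x => (dd G x U : ℝ) < (dn G Z U - ε) * U.card)).card +
      (Z.filter (fun x => (dd G x T : ℝ) < (dn G Z T - ε) * T.card)).card := by
      exact_mod_cast card_union_le _ _
    linarith
  have hgood : ∀ z ∈ Z \ B, (α - ε)^4 * ((β - ε)^2 * (γ - ε)^2) * (U.card^2 * T.card^2) ≤
      (c4 G (nb G z U) (nb G z T) : ℝ) := by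
    intro z hz
    rw [mem_sdiff, hB, mem_union, not_or, mem_filter, mem_filter, not_and, not_and] at hz
    have e1 := hz.2.1 hz.1
    have e2 := hz.2.2 hz.1
    push Not at e1 e2
    have e3 : ε * U.card ≤ (nb G z U).card := by
      rw [nb_card]
      refine le_trans (mul_le_mul_of_nonneg_right ?_ hU0) e1
      linarith
    have e4 : ε * T.card ≤ (nb G z T).card := by
      rw [nb_card]
      refine le_trans (mul_le_mul_of_nonneg_right ?_ hT0) e2
      linarith
    have e5 := (abs_le.mp (h1 (nb G z U) (nb_subset _ _ _) (nb G z T) (nb_subset _ _ _) e3 e4)).1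
    have e6 : (α - ε) * ((nb G z U).card * (nb G z T).card) ≤ (ee G (nb G z U) (nb G z T) : ℝ) := by
      linarith
    have e7 : (ee G (nb G z U) (nb G z T) : ℝ)^4 ≤
      (((nb G z U).card : ℝ)^2 * ((nb G z T).card : ℝ)^2) * c4 G (nb G z U) (nb G z T) := by
      exact_mod_cast c4_lower G (nb G z U) (nb G z T)
    set u : ℝ := ((nb G z U).card : ℝ) with hu
    set t : ℝ := ((nb G z T).card : ℝ) with ht
    have hu1 : (β - ε) * U.card ≤ u := by rw [hu, nb_card]; exact e1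
    have ht1 : (γ - ε) * T.card ≤ t := by rw [ht, nb_card]; exact e2
    have hu0 : 0 ≤ u := Nat.cast_nonneg _
    have ht0 : 0 ≤ t := Nat.cast_nonneg _
    have e8 : ((α - ε) * (u * t))^4 ≤ (u^2 * t^2) * c4 G (nb G z U) (nb G z T) := by
      refine le_trans (pow_le_pow_left₀ ?_ e6 4) e7
      have : 0 ≤ α - ε := by linarith
      positivity
    by_cases h0 : u * t = 0
    · -- then the left side vanishes
      have : (U.card : ℝ) * T.card = 0 := by
        rcases mul_eq_zero.mp h0 with h | h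
        · have : (U.card : ℝ) = 0 := by
            rw [h] at hu1
            have h9 : 0 < β - ε := by linarith
            by_contra hne
            have : 0 < (U.card : ℝ) := lt_of_le_of_ne hU0 (Ne.symm hne)
            have : 0 < (β - ε) * U.card := by positivity
            linarith
          rw [this, zero_mul]
        · have : (T.card : ℝ) = 0 := by
            rw [h] at ht1
            have h9 : 0 < γ - ε := by linarith
            by_contra hne
            have : 0 < (T.card : ℝ) := lt_of_le_of_ne hT0 (Ne.symm hne)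
            have : 0 < (γ - ε) * T.card := by positivity
            linarith
          rw [this, mul_zero]
      have h10 : (U.card : ℝ)^2 * T.card^2 = 0 := by
        rw [← mul_pow, this]; norm_num
      rw [h10, mul_zero]
      exact Nat.cast_nonneg _
    · have hpos : 0 < (u * t)^2 := by positivity
      have e9 : (u*t)^2 * ((α - ε)^4 * (u * t)^2) ≤ (u*t)^2 * c4 G (nb G z U) (nb G z T) := by
        calc (u*t)^2 * ((α - ε)^4 * (u * t)^2) = ((α - ε) * (u * t))^4 := by ring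
          _ ≤ _ := e8
          _ = _ := by ring
      have e10 := le_of_mul_le_mul_left e9 hpos
      have e11 : ((β - ε) * U.card) * ((γ - ε) * T.card) ≤ u * t := by
        apply mul_le_mul hu1 ht1 _ hu0
        have : 0 ≤ γ - ε := by linarith
        positivity
      have e12 : (((β - ε) * U.card) * ((γ - ε) * T.card))^2 ≤ (u * t)^2 := by
        apply pow_le_pow_left₀ _ e11
        have : 0 ≤ γ - ε := by linarith
        have : 0 ≤ β - ε := by linarith
        positivity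
      calc (α - ε)^4 * ((β - ε)^2 * (γ - ε)^2) * (U.card^2 * T.card^2)
          = (α - ε)^4 * (((β - ε) * U.card) * ((γ - ε) * T.card))^2 := by ring
        _ ≤ (α - ε)^4 * (u * t)^2 := by
          apply mul_le_mul_of_nonneg_left e12
          have : 0 ≤ α - ε := by linarith
          positivity
        _ ≤ _ := e10
  have hsum : ((Z \ B).card : ℝ) * ((α - ε)^4 * ((β - ε)^2 * (γ - ε)^2) * (U.card^2 * T.card^2)) ≤
      kk G U T Z := by
    have e1 : (kk G U T Z : ℝ) = ∑ z ∈ Z, (c4 G (nb G z U) (nb G z T) : ℝ) := by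
      unfold kk; push_cast; rfl
    rw [e1]
    calc ((Z \ B).card : ℝ) * ((α - ε)^4 * ((β - ε)^2 * (γ - ε)^2) * (U.card^2 * T.card^2))
        = ∑ z ∈ Z \ B, (α - ε)^4 * ((β - ε)^2 * (γ - ε)^2) * (U.card^2 * T.card^2) := by
          rw [sum_const, nsmul_eq_mul]
      _ ≤ ∑ z ∈ Z \ B, (c4 G (nb G z U) (nb G z T) : ℝ) := sum_le_sum hgood
      _ ≤ _ := sum_le_sum_of_subset_of_nonneg sdiff_subset (fun _ _ _ => Nat.cast_nonneg _)
  have hZB : (1 - 2 * ε) * Z.card ≤ ((Z \ B).card : ℝ) := by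
    have e1 : Z.card ≤ (Z \ B).card + B.card := by
      have := le_card_sdiff B Z
      omega
    have e2 : (Z.card : ℝ) ≤ (Z \ B).card + B.card := by exact_mod_cast e1
    linarith
  have hp := prod8 (a := α) (b := β) (g := γ) hα (by linarith) (by linarith) hα1 hβ1 hγ1 hε hε1
  have hP0 : 0 ≤ (α - ε)^4 * ((β - ε)^2 * (γ - ε)^2) * ((U.card : ℝ)^2 * T.card^2) := by
    have : 0 ≤ α - ε := by linarith
    positivity
  calc (α ^ 4 * β ^ 2 * γ ^ 2 - 10 * ε) * (U.card^2 * T.card^2 * Z.card)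
      ≤ ((1 - 2 * ε) * ((α - ε)^4 * ((β - ε)^2 * (γ - ε)^2))) * (U.card^2 * T.card^2 * Z.card) :=
        mul_le_mul_of_nonneg_right hp (by positivity)
    _ = ((1 - 2 * ε) * Z.card) * ((α - ε)^4 * ((β - ε)^2 * (γ - ε)^2) * (U.card^2 * T.card^2)) := by ring
    _ ≤ ((Z \ B).card : ℝ) * ((α - ε)^4 * ((β - ε)^2 * (γ - ε)^2) * (U.card^2 * T.card^2)) :=
        mul_le_mul_of_nonneg_right hZB hP0
    _ ≤ _ := hsum

/-- upper bound for the total number from the absence of 4-cycles with many common neighbours -/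
theorem kk_upper {G : SimpleGraph V} {θ : ℝ} (hθ : 0 ≤ θ) (hNB : NB G θ) (U T : Finset V) :
    (kk G U T univ : ℝ) ≤ θ * c4 G U T +
      (U.card * T.card^2 + U.card^2 * T.card) * Fintype.card V := by
  set Ω := (U ×ˢ U) ×ˢ (T ×ˢ T) with hΩ
  set Ad : (V × V) × (V × V) → Prop := fun p =>
      (G.Adj p.1.1 p.2.1 ∧ G.Adj p.1.2 p.2.1) ∧ (G.Adj p.1.1 p.2.2 ∧ G.Adj p.1.2 p.2.2) with hAd
  have h1 : kk G U T univ = ∑ p ∈ Ω.filter Ad, (cn G p.1.1 p.2.1 p.1.2 p.2.2).card := by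
    unfold kk
    have e1 : ∀ z ∈ (univ : Finset V), c4 G (nb G z U) (nb G z T) = ∑ p ∈ Ω.filter Ad,
        if (G.Adj z p.1.1 ∧ G.Adj z p.2.1 ∧ G.Adj z p.1.2 ∧ G.Adj z p.2.2) then 1 else 0 := by
      intro z _
      rw [c4_card, ← card_filter]
      congr 1
      ext p
      simp only [mem_filter, mem_product, nb, hΩ, hAd]
      tauto
    rw [sum_congr rfl e1, sum_comm]
    apply sum_congr rfl; intro p _
    unfold cn
    rw [card_filter]
  have h2 : ∀ p ∈ Ω.filter Ad, ((cn G p.1.1 p.2.1 p.1.2 p.2.2).card : ℝ) ≤ θ +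
      ((if p.1.1 = p.1.2 then (Fintype.card V : ℝ) else 0) + if p.2.1 = p.2.2 then (Fintype.card V : ℝ) else 0) := by
    intro p hp
    have e0 : ((cn G p.1.1 p.2.1 p.1.2 p.2.2).card : ℝ) ≤ Fintype.card V := by
      exact_mod_cast card_le_univ _
    have hn : (0:ℝ) ≤ Fintype.card V := Nat.cast_nonneg _
    by_cases e1 : p.1.1 = p.1.2
    · rw [if_pos e1]
      have : (0:ℝ) ≤ if p.2.1 = p.2.2 then (Fintype.card V : ℝ) else 0 := by split <;> simp
      linarith
    · by_cases e2 : p.2.1 = p.2.2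
      · rw [if_neg e1, if_pos e2]; linarith
      · rw [if_neg e1, if_neg e2]
        rw [mem_filter] at hp
        have := hNB p.1.1 p.2.1 p.1.2 p.2.2 e1 e2 hp.2.1.1 hp.2.1.2.symm hp.2.2.2 hp.2.2.1.symm
        linarith
  have h3 : (kk G U T univ : ℝ) = ∑ p ∈ Ω.filter Ad, ((cn G p.1.1 p.2.1 p.1.2 p.2.2).card : ℝ) := by
    rw [h1]; push_cast; rfl
  have h4 : (c4 G U T : ℝ) = ((Ω.filter Ad).card : ℝ) := by
    rw [c4_card]
  have h5 : ∑ p ∈ Ω, (if p.1.1 = p.1.2 then (Fintype.card V : ℝ) else 0) =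
      U.card * T.card^2 * Fintype.card V := by
    rw [hΩ, sum_product, sum_product]
    have : ∀ x ∈ U, ∑ x' ∈ U, ∑ _r ∈ T ×ˢ T, (if x = x' then (Fintype.card V : ℝ) else 0) =
        (T.card : ℝ)^2 * Fintype.card V := by
      intro x hx
      have e : ∀ x' ∈ U, ∑ _r ∈ T ×ˢ T, (if x = x' then (Fintype.card V : ℝ) else 0) =
          (T.card : ℝ)^2 * (if x = x' then (Fintype.card V : ℝ) else 0) := by
        intro x' _
        rw [sum_const, nsmul_eq_mul, card_product]; push_cast; ring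
      rw [sum_congr rfl e, ← mul_sum, sum_ite_eq U x, if_pos hx]
    rw [sum_congr rfl this, sum_const, nsmul_eq_mul]
    ring
  have h6 : ∑ p ∈ Ω, (if p.2.1 = p.2.2 then (Fintype.card V : ℝ) else 0) =
      U.card^2 * T.card * Fintype.card V := by
    rw [hΩ, sum_product]
    have : ∀ q ∈ U ×ˢ U, ∑ r ∈ T ×ˢ T, (if r.1 = r.2 then (Fintype.card V : ℝ) else 0) =
        (T.card : ℝ) * Fintype.card V := by
      intro q _
      rw [sum_product]
      have e : ∀ y ∈ T, ∑ y' ∈ T, (if y = y' then (Fintype.card V : ℝ) else 0) = Fintype.card V := by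
        intro y hy
        rw [sum_ite_eq T y, if_pos hy]
      rw [sum_congr rfl e, sum_const, nsmul_eq_mul]
    rw [sum_congr rfl this, sum_const, nsmul_eq_mul, card_product]
    push_cast; ring
  rw [h3, h4]
  calc ∑ p ∈ Ω.filter Ad, ((cn G p.1.1 p.2.1 p.1.2 p.2.2).card : ℝ)
      ≤ ∑ p ∈ Ω.filter Ad, (θ + ((if p.1.1 = p.1.2 then (Fintype.card V : ℝ) else 0) +
        if p.2.1 = p.2.2 then (Fintype.card V : ℝ) else 0)) := sum_le_sum h2
    _ = θ * (Ω.filter Ad).card + ∑ p ∈ Ω.filter Ad, ((if p.1.1 = p.1.2 then (Fintype.card V : ℝ) else 0) +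
        if p.2.1 = p.2.2 then (Fintype.card V : ℝ) else 0) := by
        rw [sum_add_distrib, sum_const, nsmul_eq_mul]; ring
    _ ≤ θ * (Ω.filter Ad).card + ∑ p ∈ Ω, ((if p.1.1 = p.1.2 then (Fintype.card V : ℝ) else 0) +
        if p.2.1 = p.2.2 then (Fintype.card V : ℝ) else 0) := by
        apply add_le_add_right
        apply sum_le_sum_of_subset_of_nonneg (filter_subset _ _)
        intro p _ _
        have e1 : (0:ℝ) ≤ if p.1.1 = p.1.2 then (Fintype.card V : ℝ) else 0 := by split <;> simp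
        have e2 : (0:ℝ) ≤ if p.2.1 = p.2.2 then (Fintype.card V : ℝ) else 0 := by split <;> simp
        linarith
    _ = _ := by
        rw [sum_add_distrib, h5, h6]; ring

end Pool.Agent.H.MP_9ec287_co.NearBip
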