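import Mathlib
import Pool.Agent.H.MP_9ec287_co.RegStep.CountK
import Pool.Agent.H.MP_9ec287_co.NearBip.Cut

/-! The reduced weighted graph of a regular partition. -/

set_option linter.unusedSectionVars false

namespace Pool.Agent.H.MP_9ec287_co.NearBip

open Finset Classical

variable {V : Type*} [Fintype V] [DecidableEq V]

lemma edgeDensity_eq (G : SimpleGraph V) (U T : Finset V) : ((G.edgeDensity U T : ℚ) : ℝ) = dn G U T := by
  have h : (G.interedges U T).card = ee G U T := by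
    rw [SimpleGraph.interedges_def, card_filter, sum_product]
    unfold ee
    simp_rw [dd_eq_sum]
  rw [SimpleGraph.edgeDensity_def, h]
  unfold dn
  push_cast
  rfl

lemma Rg_of_isUniform {G : SimpleGraph V} {ε : ℝ} {U T : Finset V} (h : G.IsUniform ε U T) :
    Rg G ε U T := by
  intro U' hU' T' hT' h1 h2
  have h3 := h hU' hT' (by rwa [mul_comm]) (by rwa [mul_comm])
  rw [edgeDensity_eq, edgeDensity_eq] at h3
  have hp : (0:ℝ) ≤ (U'.card : ℝ) * T'.card := by positivity
  by_cases h0 : (U'.card : ℝ) * T'.card = 0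
  · have h4 : (ee G U' T' : ℝ) ≤ (U'.card : ℝ) * T'.card := by exact_mod_cast ee_le_mul G U' T'
    have h5 : (0:ℝ) ≤ ee G U' T' := Nat.cast_nonneg _
    have h6 : (ee G U' T' : ℝ) = 0 := by linarith
    rw [h0, h6]; simp
  · have h4 : (ee G U' T' : ℝ) = dn G U' T' * (U'.card * T'.card) := by
      unfold dn
      exact (div_mul_cancel₀ _ h0).symm
    rw [h4, ← sub_mul, abs_mul, abs_of_nonneg hp]
    exact mul_le_mul_of_nonneg_right h3.le hp

/-- good pairs of parts -/
def good (G : SimpleGraph V) (ε d : ℝ) (U T : Finset V) : Prop :=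
  U ≠ T ∧ Rg G ε U T ∧ d ≤ dn G U T

lemma good.symm {G : SimpleGraph V} {ε d : ℝ} {U T : Finset V} (h : good G ε d U T) :
    good G ε d T U :=
  ⟨h.1.symm, h.2.1.symm, by rw [dn_comm]; exact h.2.2⟩

lemma good_comm {G : SimpleGraph V} {ε d : ℝ} {U T : Finset V} :
    good G ε d U T ↔ good G ε d T U := ⟨good.symm, good.symm⟩

/-- weights of the reduced graph -/
noncomputable def Wt (G : SimpleGraph V) (ε d : ℝ) (U T : Finset V) : ℝ :=
  if good G ε d U T then dn G U T else 0

lemma Wt_nonneg (G : SimpleGraph V) (ε d : ℝ) (U T : Finset V) : 0 ≤ Wt G ε d U T := by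
  unfold Wt; split
  · exact dn_nonneg _ _ _
  · exact le_refl _

lemma Wt_le_one (G : SimpleGraph V) (ε d : ℝ) (U T : Finset V) : Wt G ε d U T ≤ 1 := by
  unfold Wt; split
  · exact dn_le_one _ _ _
  · exact zero_le_one

lemma Wt_comm (G : SimpleGraph V) (ε d : ℝ) (U T : Finset V) : Wt G ε d U T = Wt G ε d T U := by
  unfold Wt
  rw [dn_comm G U T]
  simp only [good_comm (U := U)]

/-- edges outside good pairs -/
noncomputable def bd (G : SimpleGraph V) (ε d : ℝ) (U T : Finset V) : ℝ :=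
  if good G ε d U T then 0 else (ee G U T : ℝ)

lemma bd_nonneg (G : SimpleGraph V) (ε d : ℝ) (U T : Finset V) : 0 ≤ bd G ε d U T := by
  unfold bd; split
  · exact le_refl _
  · exact Nat.cast_nonneg _

lemma bd_comm (G : SimpleGraph V) (ε d : ℝ) (U T : Finset V) : bd G ε d U T = bd G ε d T U := by
  unfold bd
  rw [ee_comm G U T]
  simp only [good_comm (U := U)]

lemma ee_eq_dn (G : SimpleGraph V) (U T : Finset V) : (ee G U T : ℝ) = dn G U T * (U.card * T.card) := by
  by_cases h0 : (U.card : ℝ) * T.card = 0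
  · have h4 : (ee G U T : ℝ) ≤ (U.card : ℝ) * T.card := by exact_mod_cast ee_le_mul G U T
    have h5 : (0:ℝ) ≤ ee G U T := Nat.cast_nonneg _
    rw [h0, mul_zero]; linarith
  · unfold dn; exact (div_mul_cancel₀ _ h0).symm

lemma ee_eq_Wt_bd (G : SimpleGraph V) (ε d : ℝ) (U T : Finset V) :
    (ee G U T : ℝ) = Wt G ε d U T * (U.card * T.card) + bd G ε d U T := by
  unfold Wt bd
  by_cases h : good G ε d U T
  · rw [if_pos h, if_pos h, add_zero, ee_eq_dn]
  · rw [if_neg h, if_neg h, zero_mul, zero_add]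

section parts

variable {P : Finpartition (univ : Finset V)}

lemma sum_parts (f : V → ℝ) : ∑ x, f x = ∑ U ∈ P.parts, ∑ x ∈ U, f x := by
  have h := P.biUnion_parts
  refine (congrArg (fun s : Finset V => ∑ x ∈ s, f x) h).symm.trans ?_
  rw [sum_biUnion]
  · rfl
  · exact P.supIndep.pairwiseDisjoint

lemma card_parts_real : ∑ U ∈ P.parts, (U.card : ℝ) = Fintype.card V := by
  have h := P.sum_card_parts
  rw [card_univ] at h
  exact_mod_cast h

lemma dd_parts (G : SimpleGraph V) (x : V) : (dd G x univ : ℝ) = ∑ T ∈ P.parts, (dd G x T : ℝ) := by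
  have e : ∀ T : Finset V, (dd G x T : ℝ) = ∑ y ∈ T, if G.Adj x y then (1:ℝ) else 0 := by
    intro T
    rw [dd_eq_sum]; push_cast; rfl
  rw [e]
  simp_rw [e]
  exact sum_parts _

lemma ee_parts (G : SimpleGraph V) :
    (ee G univ univ : ℝ) = ∑ U ∈ P.parts, ∑ T ∈ P.parts, (ee G U T : ℝ) := by
  have h1 : (ee G univ univ : ℝ) = ∑ x, (dd G x univ : ℝ) := by unfold ee; push_cast; rfl
  rw [h1, sum_parts (P := P)]
  apply sum_congr rfl; intro U _
  have h2 : ∀ T, (ee G U T : ℝ) = ∑ x ∈ U, (dd G x T : ℝ) := by intro T; unfold ee; push_cast; rfl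
  simp_rw [h2]
  rw [sum_comm]
  exact sum_congr rfl (fun x _ => dd_parts G x)

/-- few edges outside good pairs -/
theorem bad_sum (G : SimpleGraph V) {ε d : ℝ} (hε : 0 < ε) (hd : 0 ≤ d) (hP : P.IsEquipartition)
    (hU : P.IsUniform G ε) {l : ℕ} (hl0 : 0 < l) (hl : l ≤ P.parts.card) (hn : l ≤ Fintype.card V) :
    ∑ U ∈ P.parts, ∑ T ∈ P.parts, bd G ε d U T ≤ (4 * ε + d + 2 / l) * (Fintype.card V : ℝ)^2 := by
  set n : ℝ := (Fintype.card V : ℝ) with hnr
  have hn0 : 0 < Fintype.card V := by omega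
  have hlr : (0:ℝ) < l := by exact_mod_cast hl0
  have hnr0 : 0 < n := by rw [hnr]; exact_mod_cast hn0
  have hterm : ∀ U ∈ P.parts, ∀ T ∈ P.parts, bd G ε d U T ≤
      (if U = T then (U.card : ℝ)^2 else 0) +
      (if (U, T) ∈ P.nonUniforms G ε then (U.card : ℝ) * T.card else 0) + d * (U.card * T.card) := by
    intro U hU' T hT'
    have p1 : (0:ℝ) ≤ if U = T then (U.card : ℝ)^2 else 0 := by split <;> positivity
    have p2 : (0:ℝ) ≤ if (U, T) ∈ P.nonUniforms G ε then (U.card : ℝ) * T.card else 0 := by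
      split <;> positivity
    have p3 : (0:ℝ) ≤ d * (U.card * T.card) := by positivity
    have hee : (ee G U T : ℝ) ≤ (U.card : ℝ) * T.card := by exact_mod_cast ee_le_mul G U T
    unfold bd
    by_cases hg : good G ε d U T
    · rw [if_pos hg]; linarith
    · rw [if_neg hg]
      by_cases h1 : U = T
      · rw [if_pos h1]
        rw [← h1] at hee ⊢
        have : (ee G U U : ℝ) ≤ (U.card : ℝ)^2 := by rw [sq]; exact hee
        have p2' : (0:ℝ) ≤ if (U, U) ∈ P.nonUniforms G ε then (U.card : ℝ) * U.card else 0 := by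
          split <;> positivity
        have p3' : (0:ℝ) ≤ d * (U.card * U.card) := by positivity
        linarith
      · by_cases h2 : (U, T) ∈ P.nonUniforms G ε
        · rw [if_pos h2]; linarith
        · have h3 : G.IsUniform ε U T := by
            by_contra hcon
            exact h2 (by rw [Finpartition.mk_mem_nonUniforms]; exact ⟨hU', hT', h1, hcon⟩)
          have h4 : ¬ d ≤ dn G U T := fun h5 => hg ⟨h1, Rg_of_isUniform h3, h5⟩
          push Not at h4
          have h6 : (ee G U T : ℝ) ≤ d * (U.card * T.card) := by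
            rw [ee_eq_dn]
            exact mul_le_mul_of_nonneg_right h4.le (by positivity)
          linarith
  have hsum : ∑ U ∈ P.parts, ∑ T ∈ P.parts, bd G ε d U T ≤
      ∑ U ∈ P.parts, ∑ T ∈ P.parts, ((if U = T then (U.card : ℝ)^2 else 0) +
      (if (U, T) ∈ P.nonUniforms G ε then (U.card : ℝ) * T.card else 0) + d * (U.card * T.card)) :=
    sum_le_sum (fun U hU' => sum_le_sum (fun T hT' => hterm U hU' T hT'))
  simp only [sum_add_distrib] at hsum
  have s1 : ∑ U ∈ P.parts, ∑ T ∈ P.parts, (if U = T then (U.card : ℝ)^2 else 0) ≤ 2 / l * n^2 := by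
    have e1 : ∀ U ∈ P.parts, ∑ T ∈ P.parts, (if U = T then (U.card : ℝ)^2 else 0) = (U.card : ℝ)^2 := by
      intro U hU'
      rw [sum_ite_eq P.parts U, if_pos hU']
    rw [sum_congr rfl e1]
    have e2 : ∀ U ∈ P.parts, (U.card : ℝ) ≤ 2 * n / l := by
      intro U hU'
      have h1 := hP.card_part_le_average_add_one hU'
      rw [card_univ] at h1
      have h2 : (U.card : ℝ) ≤ n / P.parts.card + 1 := by
        calc (U.card : ℝ) ≤ ((Fintype.card V / P.parts.card + 1 : ℕ) : ℝ) := by exact_mod_cast h1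
          _ = ((Fintype.card V / P.parts.card : ℕ) : ℝ) + 1 := by push_cast; rfl
          _ ≤ n / P.parts.card + 1 := by
            apply add_le_add_left
            exact Nat.cast_div_le
      have h3 : n / P.parts.card ≤ n / l := by
        apply div_le_div_of_nonneg_left hnr0.le hlr
        exact_mod_cast hl
      have h4 : 1 ≤ n / l := by
        rw [le_div_iff₀ hlr, one_mul, hnr]; exact_mod_cast hn
      have h5 : 2 * n / l = n / l + n / l := by ring
      linarith
    calc ∑ U ∈ P.parts, (U.card : ℝ)^2 ≤ ∑ U ∈ P.parts, (2 * n / l) * U.card := by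
          apply sum_le_sum
          intro U hU'
          rw [sq]
          exact mul_le_mul_of_nonneg_right (e2 U hU') (Nat.cast_nonneg _)
      _ = 2 / l * n^2 := by rw [← mul_sum, card_parts_real]; ring
  have s2 : ∑ U ∈ P.parts, ∑ T ∈ P.parts, (if (U, T) ∈ P.nonUniforms G ε then (U.card : ℝ) * T.card else 0)
      ≤ 4 * ε * n^2 := by
    have e1 : ∑ U ∈ P.parts, ∑ T ∈ P.parts, (if (U, T) ∈ P.nonUniforms G ε then (U.card : ℝ) * T.card else 0)
        = ∑ i ∈ P.nonUniforms G ε, ((i.1.card : ℝ) * i.2.card) := by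
      rw [← sum_product', ← sum_filter]
      apply sum_congr _ (fun _ _ => rfl)
      ext ⟨U, T⟩
      simp only [mem_filter, mem_product, Finpartition.mk_mem_nonUniforms]
      tauto
    rw [e1]
    have e2 := hP.sum_nonUniforms_lt' (𝕜 := ℝ) (by rw [← card_pos, card_univ]; exact hn0) hε hU
    have e3 : (P.parts.card : ℝ) ≤ n := by
      have := P.card_parts_le_card
      rw [card_univ] at this
      rw [hnr]
      exact_mod_cast this
    have e4 : ((univ : Finset V).card : ℝ) = n := by rw [card_univ]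
    rw [e4] at e2
    calc _ ≤ ε * (n + P.parts.card)^2 := e2.le
      _ ≤ ε * (n + n)^2 := by gcongr
      _ = 4 * ε * n^2 := by ring
  have s3 : ∑ U ∈ P.parts, ∑ T ∈ P.parts, d * ((U.card : ℝ) * T.card) = d * n^2 := by
    have e1 : ∀ U ∈ P.parts, ∑ T ∈ P.parts, d * ((U.card : ℝ) * T.card) = (d * n) * U.card := by
      intro U _
      rw [← mul_sum, ← mul_sum, card_parts_real]; ring
    rw [sum_congr rfl e1, ← mul_sum, card_parts_real]
    ring
  have hsum' := hsum
  rw [s3] at hsum'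
  calc _ ≤ _ := hsum'
    _ ≤ 2 / l * n^2 + 4 * ε * n^2 + d * n^2 := by linarith
    _ = _ := by ring

lemma kk_parts (G : SimpleGraph V) (U T : Finset V) :
    (kk G U T univ : ℝ) = ∑ Z ∈ P.parts, (kk G U T Z : ℝ) := by
  have h : ∀ Z, (kk G U T Z : ℝ) = ∑ z ∈ Z, (c4 G (nb G z U) (nb G z T) : ℝ) := by
    intro Z; unfold kk; push_cast; rfl
  simp_rw [h]
  exact sum_parts _

theorem f_bound {G : SimpleGraph V} {ε d c : ℝ} (hε : 0 < ε) (hεd : 2 * ε ≤ d) (hd1 : d ≤ 1)
    (hc0 : 0 ≤ c) (hc1 : c ≤ 1) (hn : 0 < Fintype.card V) (hNB : NB G (c * Fintype.card V))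
    {U T : Finset V} (hUT : good G ε d U T) (hU : 1 ≤ ε * U.card) (hT : 1 ≤ ε * T.card) :
    ∑ Z ∈ P.parts, (Z.card : ℝ) / Fintype.card V * ((Wt G ε d U Z)^2 * (Wt G ε d T Z)^2) ≤
      c + 30 * ε / d^4 := by
  set n : ℝ := (Fintype.card V : ℝ) with hnr
  have hn0 : 0 < n := by rw [hnr]; exact_mod_cast hn
  set α := dn G U T with hα
  have hα1 : α ≤ 1 := dn_le_one _ _ _
  have hd0 : 0 < d := by linarith
  have hα0 : d ≤ α := hUT.2.2
  have hαp : 0 < α := by linarith
  set u : ℝ := (U.card : ℝ) with hu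
  set t : ℝ := (T.card : ℝ) with ht
  have hu0 : 0 < u := by
    by_contra h
    push Not at h
    have : u = 0 := le_antisymm h (Nat.cast_nonneg _)
    rw [this] at hU; linarith
  have ht0 : 0 < t := by
    by_contra h
    push Not at h
    have : t = 0 := le_antisymm h (Nat.cast_nonneg _)
    rw [this] at hT; linarith
  have h1 : ∀ Z ∈ P.parts, (α^4 * ((Wt G ε d U Z)^2 * (Wt G ε d T Z)^2) - 10 * ε) * (u^2 * t^2 * Z.card) ≤
      (kk G U T Z : ℝ) := by
    intro Z _
    by_cases g1 : good G ε d U Z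
    · by_cases g2 : good G ε d T Z
      · have e1 : Wt G ε d U Z = dn G Z U := by rw [Wt, if_pos g1, dn_comm]
        have e2 : Wt G ε d T Z = dn G Z T := by rw [Wt, if_pos g2, dn_comm]
        rw [e1, e2]
        have := kk_lower hε (by linarith) hUT.2.1 g1.symm.2.1 g2.symm.2.1 (by linarith)
          (hεd.trans g1.symm.2.2) (hεd.trans g2.symm.2.2)
        calc _ = (dn G U T ^ 4 * dn G Z U ^ 2 * dn G Z T ^ 2 - 10 * ε) *
            (u^2 * t^2 * Z.card) := by rw [← hα]; ring
          _ ≤ _ := this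
      · have e2 : Wt G ε d T Z = 0 := by rw [Wt, if_neg g2]
        rw [e2]
        have : (0:ℝ) ≤ kk G U T Z := Nat.cast_nonneg _
        have h3 : 0 ≤ 10 * ε * (u^2 * t^2 * Z.card) := by positivity
        have h4 : (α^4 * ((Wt G ε d U Z)^2 * (0:ℝ)^2) - 10 * ε) * (u^2 * t^2 * Z.card) =
          - (10 * ε * (u^2 * t^2 * Z.card)) := by ring
        rw [h4]; linarith
    · have e2 : Wt G ε d U Z = 0 := by rw [Wt, if_neg g1]
      rw [e2]
      have : (0:ℝ) ≤ kk G U T Z := Nat.cast_nonneg _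
      have h3 : 0 ≤ 10 * ε * (u^2 * t^2 * Z.card) := by positivity
      have h4 : (α^4 * ((0:ℝ)^2 * (Wt G ε d T Z)^2) - 10 * ε) * (u^2 * t^2 * Z.card) =
        - (10 * ε * (u^2 * t^2 * Z.card)) := by ring
      rw [h4]; linarith
  set F : ℝ := ∑ Z ∈ P.parts, (Z.card : ℝ) / n * ((Wt G ε d U Z)^2 * (Wt G ε d T Z)^2) with hF
  have h2 : (α^4 * F - 10 * ε) * (u^2 * t^2 * n) ≤ (kk G U T univ : ℝ) := by
    rw [kk_parts (P := P)]
    refine le_trans (le_of_eq ?_) (sum_le_sum h1)
    have e1 : ∀ Z ∈ P.parts, (α^4 * ((Wt G ε d U Z)^2 * (Wt G ε d T Z)^2) - 10 * ε) * (u^2 * t^2 * Z.card) =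
        (u^2 * t^2 * n * α^4) * ((Z.card : ℝ) / n * ((Wt G ε d U Z)^2 * (Wt G ε d T Z)^2)) -
          (10 * ε * (u^2 * t^2)) * Z.card := by
      intro Z _
      field_simp
    rw [sum_congr rfl e1, sum_sub_distrib, ← mul_sum, ← mul_sum, card_parts_real, ← hF, ← hnr]
    ring
  have h3 := kk_upper (by positivity : 0 ≤ c * n) hNB U T
  have h4 := c4_upper hε (by linarith) hUT.2.1
  rw [← hα, ← hu, ← ht] at h4
  rw [← hu, ← ht, ← hnr] at h3
  have h5 : (c * n) * (c4 G U T : ℝ) ≤ (c * n) * ((α^4 + 18 * ε) * (u^2 * t^2)) :=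
    mul_le_mul_of_nonneg_left h4 (by positivity)
  have h6 : u * t^2 ≤ ε * (u^2 * t^2) := by
    calc u * t^2 = 1 * (u * t^2) := by ring
      _ ≤ (ε * u) * (u * t^2) := mul_le_mul_of_nonneg_right hU (by positivity)
      _ = _ := by ring
  have h7 : u^2 * t ≤ ε * (u^2 * t^2) := by
    calc u^2 * t = 1 * (u^2 * t) := by ring
      _ ≤ (ε * t) * (u^2 * t) := mul_le_mul_of_nonneg_right hT (by positivity)
      _ = _ := by ring
  have h8 : (u * t^2 + u^2 * t) * n ≤ (2 * ε * (u^2 * t^2)) * n := by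
    apply mul_le_mul_of_nonneg_right _ hn0.le
    linarith
  have h9 : (u^2 * t^2 * n) * (α^4 * F - 10 * ε) ≤ (u^2 * t^2 * n) * (c * (α^4 + 18 * ε) + 2 * ε) := by
    calc (u^2 * t^2 * n) * (α^4 * F - 10 * ε) = (α^4 * F - 10 * ε) * (u^2 * t^2 * n) := by ring
      _ ≤ (c * n) * ((α^4 + 18 * ε) * (u^2 * t^2)) + (2 * ε * (u^2 * t^2)) * n := by linarith
      _ = _ := by ring
  have h10 := le_of_mul_le_mul_left h9 (by positivity)
  have h11 : α^4 * (F - c) ≤ 30 * ε := by nlinarith
  by_cases hFc : F ≤ c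
  · have : 0 ≤ 30 * ε / d^4 := by positivity
    linarith
  · push Not at hFc
    have h12 : d^4 * (F - c) ≤ 30 * ε := by
      refine le_trans (mul_le_mul_of_nonneg_right (pow_le_pow_left₀ hd0.le hα0 4) ?_) h11
      linarith
    have h13 : F - c ≤ 30 * ε / d^4 := by
      rw [le_div_iff₀ (by positivity)]
      linarith
    linarith

end parts

end Pool.Agent.H.MP_9ec287_co.NearBip
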