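import Mathlib
import Pool.Agent.H.MP_9ec287_co.RegStep.Parts
import Pool.Agent.H.MP_9ec287_co.Weighted

/-! Few triangles from the weighted inequality. -/

set_option linter.unusedSectionVars false

namespace Pool.Agent.H.MP_9ec287_co.NearBip

open Finset Classical

variable {V : Type*} [Fintype V] [DecidableEq V]

/-- indicator of a triangle -/
noncomputable def tau (G : SimpleGraph V) (x y z : V) : ℝ :=
  if G.Adj x y ∧ G.Adj x z ∧ G.Adj y z then 1 else 0

lemma tau_nonneg (G : SimpleGraph V) (x y z : V) : 0 ≤ tau G x y z := by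
  unfold tau; split <;> norm_num

lemma ee_nb (G : SimpleGraph V) (x : V) (T Z : Finset V) :
    (ee G (nb G x T) (nb G x Z) : ℝ) = ∑ y ∈ T, ∑ z ∈ Z, tau G x y z := by
  unfold ee nb tau
  push_cast
  rw [sum_filter]
  apply sum_congr rfl; intro y _
  by_cases h : G.Adj x y
  · rw [if_pos h]
    unfold dd
    rw [filter_filter, card_filter]
    push_cast
    apply sum_congr rfl; intro z _
    simp only [h, true_and]
  · rw [if_neg h]
    simp [h]

/-- triangles between three sets -/
noncomputable def T3 (G : SimpleGraph V) (U T Z : Finset V) : ℝ :=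
  ∑ x ∈ U, ∑ y ∈ T, ∑ z ∈ Z, tau G x y z

lemma T3_le (G : SimpleGraph V) {ε d : ℝ} (hε : 0 < ε) (hε1 : ε ≤ 1) (U T Z : Finset V) :
    T3 G U T Z ≤ (Wt G ε d U T * Wt G ε d U Z * Wt G ε d T Z + 10 * ε) * (U.card * T.card * Z.card) +
      (Z.card * bd G ε d U T + T.card * bd G ε d U Z + U.card * bd G ε d T Z) := by
  have p1 : 0 ≤ Wt G ε d U T := Wt_nonneg _ _ _ _ _
  have p2 : 0 ≤ Wt G ε d U Z := Wt_nonneg _ _ _ _ _
  have p3 : 0 ≤ Wt G ε d T Z := Wt_nonneg _ _ _ _ _
  have q1 : 0 ≤ bd G ε d U T := bd_nonneg _ _ _ _ _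
  have q2 : 0 ≤ bd G ε d U Z := bd_nonneg _ _ _ _ _
  have q3 : 0 ≤ bd G ε d T Z := bd_nonneg _ _ _ _ _
  have P : 0 ≤ (Wt G ε d U T * Wt G ε d U Z * Wt G ε d T Z + 10 * ε) * (U.card * T.card * Z.card) := by
    positivity
  have Q1 : 0 ≤ (Z.card : ℝ) * bd G ε d U T := by positivity
  have Q2 : 0 ≤ (T.card : ℝ) * bd G ε d U Z := by positivity
  have Q3 : 0 ≤ (U.card : ℝ) * bd G ε d T Z := by positivity
  have eer : ∀ S R : Finset V, (ee G S R : ℝ) = ∑ x ∈ S, ∑ y ∈ R, if G.Adj x y then (1:ℝ) else 0 := by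
    intro S R
    unfold ee
    push_cast
    apply sum_congr rfl; intro x _
    rw [dd_eq_sum]; push_cast; rfl
  by_cases g1 : good G ε d U T
  · by_cases g2 : good G ε d U Z
    · by_cases g3 : good G ε d T Z
      · have h := tri_upper hε hε1 g1.2.1 g2.2.1 g3.2.1
        have e1 : T3 G U T Z = ∑ x ∈ U, (ee G (nb G x T) (nb G x Z) : ℝ) := by
          unfold T3
          exact sum_congr rfl (fun x _ => (ee_nb G x T Z).symm)
        rw [e1]
        have e2 : Wt G ε d U T = dn G U T := if_pos g1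
        have e3 : Wt G ε d U Z = dn G U Z := if_pos g2
        have e4 : Wt G ε d T Z = dn G T Z := if_pos g3
        rw [e2, e3, e4]
        linarith
      · have e : T3 G U T Z ≤ U.card * bd G ε d T Z := by
          have : bd G ε d T Z = ee G T Z := if_neg g3
          rw [this, eer]
          unfold T3
          calc _ ≤ ∑ x ∈ U, ∑ y ∈ T, ∑ z ∈ Z, (if G.Adj y z then (1:ℝ) else 0) := by
                apply sum_le_sum; intro x _
                apply sum_le_sum; intro y _
                apply sum_le_sum; intro z _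
                unfold tau
                split_ifs with h1 h2 h2
                · exact le_refl _
                · exact absurd h1.2.2 h2
                · norm_num
                · exact le_refl _
            _ = _ := by rw [sum_const, nsmul_eq_mul]
        linarith
    · have e : T3 G U T Z ≤ T.card * bd G ε d U Z := by
        have : bd G ε d U Z = ee G U Z := if_neg g2
        rw [this, eer]
        unfold T3
        calc _ ≤ ∑ x ∈ U, ∑ y ∈ T, ∑ z ∈ Z, (if G.Adj x z then (1:ℝ) else 0) := by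
              apply sum_le_sum; intro x _
              apply sum_le_sum; intro y _
              apply sum_le_sum; intro z _
              unfold tau
              split_ifs with h1 h2 h2
              · exact le_refl _
              · exact absurd h1.2.1 h2
              · norm_num
              · exact le_refl _
          _ = _ := by
              rw [mul_sum]
              apply sum_congr rfl; intro x _
              rw [sum_const, nsmul_eq_mul]
      linarith
  · have e : T3 G U T Z ≤ Z.card * bd G ε d U T := by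
      have : bd G ε d U T = ee G U T := if_neg g1
      rw [this, eer]
      unfold T3
      calc _ ≤ ∑ x ∈ U, ∑ y ∈ T, ∑ z ∈ Z, (if G.Adj x y then (1:ℝ) else 0) := by
            apply sum_le_sum; intro x _
            apply sum_le_sum; intro y _
            apply sum_le_sum; intro z _
            unfold tau
            split_ifs with h1 h2 h2
            · exact le_refl _
            · exact absurd h1.1 h2
            · norm_num
            · exact le_refl _
        _ = _ := by
            rw [mul_sum]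
            apply sum_congr rfl; intro x _
            rw [mul_sum]
            apply sum_congr rfl; intro y _
            rw [sum_const, nsmul_eq_mul]
    linarith

section parts

variable {P : Finpartition (univ : Finset V)}

lemma t3_parts (G : SimpleGraph V) :
    (t3 G : ℝ) = ∑ U ∈ P.parts, ∑ T ∈ P.parts, ∑ Z ∈ P.parts, T3 G U T Z := by
  have h1 : (t3 G : ℝ) = ∑ x, ∑ y, ∑ z, tau G x y z := by
    unfold t3
    push_cast
    apply sum_congr rfl; intro x _
    exact ee_nb G x univ univ
  rw [h1, sum_parts (P := P)]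
  apply sum_congr rfl; intro U _
  have h2 : ∀ x ∈ U, ∑ y, ∑ z, tau G x y z =
      ∑ T ∈ P.parts, ∑ Z ∈ P.parts, ∑ y ∈ T, ∑ z ∈ Z, tau G x y z := by
    intro x _
    rw [sum_parts (P := P)]
    apply sum_congr rfl; intro T _
    calc ∑ y ∈ T, ∑ z, tau G x y z = ∑ y ∈ T, ∑ Z ∈ P.parts, ∑ z ∈ Z, tau G x y z :=
          sum_congr rfl (fun y _ => sum_parts _)
      _ = _ := sum_comm
  rw [sum_congr rfl h2, sum_comm]
  apply sum_congr rfl; intro T _
  rw [sum_comm]
  rfl

/-- the weights of the parts -/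
noncomputable def wt (P : Finpartition (univ : Finset V)) (U : Finset V) : ℝ :=
  if U ∈ P.parts then (U.card : ℝ) / Fintype.card V else 0

lemma wt_nonneg (U : Finset V) : 0 ≤ wt P U := by
  unfold wt; split <;> positivity

lemma sum_wt (F : Finset V → ℝ) :
    ∑ U, wt P U * F U = ∑ U ∈ P.parts, (U.card : ℝ) / Fintype.card V * F U := by
  unfold wt
  simp only [ite_mul, zero_mul]
  rw [sum_ite_mem, univ_inter]

/-- triangle count from the weighted inequality -/
theorem tri_bound (G : SimpleGraph V) {ε d c : ℝ} (hε : 0 < ε) (hεd : 2 * ε ≤ d) (hd1 : d ≤ 1)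
    (hc0 : 0 ≤ c) (hP : P.IsEquipartition) (hU : P.IsUniform G ε) {l : ℕ} (hl0 : 0 < l)
    (hl : l ≤ P.parts.card) (hn : l ≤ Fintype.card V)
    (hNB : NB G (c * Fintype.card V)) (hbig : ∀ U ∈ P.parts, 1 ≤ ε * (U.card : ℝ))
    (hee : (Fintype.card V)^2 ≤ 2 * ee G univ univ)
    (hc' : c + 30 * ε / d^4 < 1/16) :
    (t3 G : ℝ) ≤ ((4 * ε + d + 2 / l) / (1/2 - 8 * (c + 30 * ε / d^4)) + 10 * ε +
      3 * (4 * ε + d + 2 / l)) * (Fintype.card V : ℝ)^3 := by
  set n : ℝ := (Fintype.card V : ℝ) with hnr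
  have hn0 : 0 < Fintype.card V := by omega
  have hnr0 : 0 < n := by rw [hnr]; exact_mod_cast hn0
  set lam : ℝ := 4 * ε + d + 2 / l with hlam
  set c' : ℝ := c + 30 * ε / d^4 with hc'd
  have hd0 : 0 < d := by linarith
  have hlam0 : 0 ≤ lam := by rw [hlam]; positivity
  have hbad := bad_sum (P := P) G hε hd0.le hP hU hl0 hl hn
  rw [← hlam, ← hnr] at hbad
  set W := Wt G ε d with hW
  -- the density of the reduced graph
  set p : ℝ := ∑ U, ∑ T, wt P U * wt P T * W U T with hp
  have hpe : p = (∑ U ∈ P.parts, ∑ T ∈ P.parts, W U T * (U.card * T.card)) / n^2 := by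
    rw [hp]
    have e1 : ∀ U, ∑ T, wt P U * wt P T * W U T = wt P U * ∑ T ∈ P.parts, (T.card : ℝ) / n * W U T := by
      intro U
      rw [← sum_wt, mul_sum]
      exact sum_congr rfl (fun T _ => by ring)
    simp_rw [e1]
    rw [sum_wt, sum_div]
    apply sum_congr rfl; intro U _
    rw [mul_sum, sum_div]
    apply sum_congr rfl; intro T _
    rw [← hnr]
    field_simp
  have hpl : 1/2 - lam ≤ p := by
    rw [hpe, le_div_iff₀ (by positivity)]
    have e1 := ee_parts (P := P) G
    have e2 : ∑ U ∈ P.parts, ∑ T ∈ P.parts, (ee G U T : ℝ) =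
        ∑ U ∈ P.parts, ∑ T ∈ P.parts, W U T * (U.card * T.card) +
        ∑ U ∈ P.parts, ∑ T ∈ P.parts, bd G ε d U T := by
      rw [← sum_add_distrib]
      apply sum_congr rfl; intro U _
      rw [← sum_add_distrib]
      apply sum_congr rfl; intro T _
      exact ee_eq_Wt_bd G ε d U T
    have e3 : n^2 ≤ 2 * (ee G univ univ : ℝ) := by rw [hnr]; exact_mod_cast hee
    linarith
  -- the triangle density of the reduced graph
  set r : Finset V → Finset V → ℝ := fun U T => ∑ Z, wt P Z * (W U Z * W T Z) with hr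
  set T0 : ℝ := ∑ U, ∑ T, wt P U * wt P T * W U T * r U T with hT0
  have hr0 : ∀ U T, 0 ≤ r U T := fun U T => sum_nonneg (fun Z _ =>
    mul_nonneg (wt_nonneg _) (mul_nonneg (Wt_nonneg _ _ _ _ _) (Wt_nonneg _ _ _ _ _)))
  have hwt1 : ∑ U, wt P U = 1 := by
    have := sum_wt (P := P) (fun _ => 1)
    simp only [mul_one] at this
    rw [this, ← sum_div, card_parts_real]
    exact div_self hnr0.ne'
  have hineq := weighted_ineq (wt P) W (fun U => wt_nonneg U) hwt1 (fun U T => Wt_nonneg _ _ _ _ _)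
    (fun U T => Wt_le_one _ _ _ _ _) (fun U T => Wt_comm _ _ _ _ _)
  have hT0le : (1/2 - 8 * c') * T0 ≤ 1/2 - p := by
    have hterm : ∀ U T, wt P U * wt P T * W U T *
        (8 * (∑ Z, wt P Z * (W U Z * W T Z + (1 - W U Z) * (1 - W T Z))) *
          ((∑ Z, wt P Z * (W U Z ^ 2 * W T Z ^ 2)) - 1/16)) ≤
        - ((1/2 - 8 * c') * (wt P U * wt P T * W U T * r U T)) := by
      intro U T
      have w1 := wt_nonneg (P := P) U
      have w2 := wt_nonneg (P := P) T
      have w3 : 0 ≤ W U T := Wt_nonneg _ _ _ _ _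
      by_cases h0 : wt P U * wt P T * W U T = 0
      · rw [h0]; simp
      · have hUm : U ∈ P.parts := by
          by_contra h; exact h0 (by rw [wt, if_neg h]; ring)
        have hTm : T ∈ P.parts := by
          by_contra h; exact h0 (by rw [wt.eq_def (U := T), if_neg h]; ring)
        have hgood : good G ε d U T := by
          by_contra h
          exact h0 (by rw [hW, Wt, if_neg h]; ring)
        have hf := f_bound (P := P) hε hεd hd1 hc0 (by
            have : 0 ≤ 30 * ε / d^4 := by positivity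
            linarith) hn0 hNB hgood (hbig U hUm) (hbig T hTm)
        have hf2 : ∑ Z, wt P Z * (W U Z ^ 2 * W T Z ^ 2) ≤ c' := by
          rw [sum_wt]; exact hf
        have hq : r U T ≤ ∑ Z, wt P Z * (W U Z * W T Z + (1 - W U Z) * (1 - W T Z)) := by
          apply sum_le_sum
          intro Z _
          apply mul_le_mul_of_nonneg_left _ (wt_nonneg _)
          have a1 : W U Z ≤ 1 := Wt_le_one _ _ _ _ _
          have a2 : W T Z ≤ 1 := Wt_le_one _ _ _ _ _
          have a3 : 0 ≤ (1 - W U Z) * (1 - W T Z) := mul_nonneg (by linarith) (by linarith)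
          linarith
        set q := ∑ Z, wt P Z * (W U Z * W T Z + (1 - W U Z) * (1 - W T Z)) with hqd
        set f := ∑ Z, wt P Z * (W U Z ^ 2 * W T Z ^ 2) with hfd
        have hA : 0 ≤ wt P U * wt P T * W U T := by positivity
        have hq0 : 0 ≤ q := (hr0 U T).trans hq
        have h1 : 8 * q * (f - 1/16) ≤ 8 * q * (c' - 1/16) :=
          mul_le_mul_of_nonneg_left (by linarith) (by positivity)
        have h2 : 8 * q * (c' - 1/16) ≤ 8 * r U T * (c' - 1/16) := by
          nlinarith
        have h3 : 8 * q * (f - 1/16) ≤ - ((1/2 - 8 * c') * r U T) := by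
          have : 8 * r U T * (c' - 1/16) = - ((1/2 - 8 * c') * r U T) := by ring
          linarith
        calc _ ≤ wt P U * wt P T * W U T * (- ((1/2 - 8 * c') * r U T)) :=
              mul_le_mul_of_nonneg_left h3 hA
          _ = _ := by ring
    have hsum : ∑ U, ∑ T, wt P U * wt P T * W U T *
        (8 * (∑ Z, wt P Z * (W U Z * W T Z + (1 - W U Z) * (1 - W T Z))) *
          ((∑ Z, wt P Z * (W U Z ^ 2 * W T Z ^ 2)) - 1/16)) ≤
        - ((1/2 - 8 * c') * T0) := by
      calc _ ≤ ∑ U, ∑ T, - ((1/2 - 8 * c') * (wt P U * wt P T * W U T * r U T)) :=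
            sum_le_sum (fun U _ => sum_le_sum (fun T _ => hterm U T))
        _ = _ := by
            rw [hT0, mul_sum, ← sum_neg_distrib]
            apply sum_congr rfl; intro U _
            rw [mul_sum, ← sum_neg_distrib]
    linarith
  have hκ : 0 < 1/2 - 8 * c' := by linarith
  have hT0b : T0 ≤ lam / (1/2 - 8 * c') := by
    rw [le_div_iff₀ hκ]
    linarith
  have hT0e : ∑ U ∈ P.parts, ∑ T ∈ P.parts, ∑ Z ∈ P.parts,
      W U T * W U Z * W T Z * ((U.card : ℝ) * T.card * Z.card) = T0 * n^3 := by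
    have e1 : ∀ U T, wt P U * wt P T * W U T * r U T =
        wt P U * (wt P T * (W U T * ∑ Z ∈ P.parts, (Z.card : ℝ) / n * (W U Z * W T Z))) := by
      intro U T
      rw [hr]
      simp only
      rw [sum_wt]
      ring
    rw [hT0]
    simp_rw [e1, ← mul_sum]
    rw [sum_wt]
    have e2 : ∀ U, ∑ T, wt P T * (W U T * ∑ Z ∈ P.parts, (Z.card : ℝ) / n * (W U Z * W T Z)) =
        ∑ T ∈ P.parts, (T.card : ℝ) / n * (W U T * ∑ Z ∈ P.parts, (Z.card : ℝ) / n * (W U Z * W T Z)) := by
      intro U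
      rw [sum_wt]
    simp_rw [e2]
    rw [sum_mul]
    apply sum_congr rfl; intro U _
    rw [mul_sum, sum_mul]
    apply sum_congr rfl; intro T _
    rw [mul_sum, mul_sum, mul_sum, sum_mul]
    apply sum_congr rfl; intro Z _
    rw [← hnr]
    field_simp
  -- triangles
  have ht : (t3 G : ℝ) ≤ ∑ U ∈ P.parts, ∑ T ∈ P.parts, ∑ Z ∈ P.parts,
      ((W U T * W U Z * W T Z + 10 * ε) * (U.card * T.card * Z.card) +
      (Z.card * bd G ε d U T + T.card * bd G ε d U Z + U.card * bd G ε d T Z)) := by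
    rw [t3_parts (P := P)]
    exact sum_le_sum (fun U _ => sum_le_sum (fun T _ => sum_le_sum (fun Z _ =>
      T3_le G hε (by linarith) U T Z)))
  have hcp : ∑ U ∈ P.parts, (U.card : ℝ) = n := card_parts_real
  have hs1 : ∑ U ∈ P.parts, ∑ T ∈ P.parts, ∑ Z ∈ P.parts,
      (W U T * W U Z * W T Z + 10 * ε) * ((U.card : ℝ) * T.card * Z.card) = T0 * n^3 + 10 * ε * n^3 := by
    have e1 : ∀ U ∈ P.parts, ∀ T ∈ P.parts, ∀ Z ∈ P.parts,
        (W U T * W U Z * W T Z + 10 * ε) * ((U.card : ℝ) * T.card * Z.card) =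
        W U T * W U Z * W T Z * ((U.card : ℝ) * T.card * Z.card) +
          10 * ε * ((U.card : ℝ) * T.card * Z.card) := fun U _ T _ Z _ => by ring
    rw [sum_congr rfl (fun U hU => sum_congr rfl (fun T hT => sum_congr rfl (fun Z hZ => e1 U hU T hT Z hZ)))]
    simp only [sum_add_distrib]
    rw [hT0e]
    congr 1
    simp_rw [← mul_sum, hcp, ← sum_mul, ← mul_sum, hcp, ← sum_mul, hcp]
    ring
  have hs2 : ∑ U ∈ P.parts, ∑ T ∈ P.parts, ∑ Z ∈ P.parts, (Z.card : ℝ) * bd G ε d U T ≤ n * (lam * n^2) := by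
    have : ∑ U ∈ P.parts, ∑ T ∈ P.parts, ∑ Z ∈ P.parts, (Z.card : ℝ) * bd G ε d U T =
        n * ∑ U ∈ P.parts, ∑ T ∈ P.parts, bd G ε d U T := by
      rw [mul_sum]
      apply sum_congr rfl; intro U _
      rw [mul_sum]
      apply sum_congr rfl; intro T _
      rw [← sum_mul, hcp]
    rw [this]
    exact mul_le_mul_of_nonneg_left hbad hnr0.le
  have hs3 : ∑ U ∈ P.parts, ∑ T ∈ P.parts, ∑ Z ∈ P.parts, (T.card : ℝ) * bd G ε d U Z ≤ n * (lam * n^2) := by
    refine le_trans (le_of_eq ?_) hs2
    apply sum_congr rfl; intro U _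
    rw [sum_comm]
  have hs4 : ∑ U ∈ P.parts, ∑ T ∈ P.parts, ∑ Z ∈ P.parts, (U.card : ℝ) * bd G ε d T Z ≤ n * (lam * n^2) := by
    have : ∑ U ∈ P.parts, ∑ T ∈ P.parts, ∑ Z ∈ P.parts, (U.card : ℝ) * bd G ε d T Z =
        n * ∑ U ∈ P.parts, ∑ T ∈ P.parts, bd G ε d U T := by
      have e : ∀ U ∈ P.parts, ∑ T ∈ P.parts, ∑ Z ∈ P.parts, (U.card : ℝ) * bd G ε d T Z =
          (U.card : ℝ) * ∑ T ∈ P.parts, ∑ Z ∈ P.parts, bd G ε d T Z := by
        intro U _
        simp_rw [← mul_sum]
      rw [sum_congr rfl e, ← sum_mul, hcp]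
    rw [this]
    exact mul_le_mul_of_nonneg_left hbad hnr0.le
  simp only [sum_add_distrib] at ht
  have hfin : (t3 G : ℝ) ≤ T0 * n^3 + 10 * ε * n^3 + 3 * (n * (lam * n^2)) := by
    have : ∀ a b c' e : ℝ, a ≤ T0 * n^3 + 10 * ε * n^3 → b ≤ n * (lam * n^2) → c' ≤ n * (lam * n^2) →
        e ≤ n * (lam * n^2) → a + (b + c' + e) ≤ T0 * n^3 + 10 * ε * n^3 + 3 * (n * (lam * n^2)) := by
      intro a b c' e h1 h2 h3 h4; linarith
    exact ht.trans (this _ _ _ _ hs1.le hs2 hs3 hs4)
  calc (t3 G : ℝ) ≤ T0 * n^3 + 10 * ε * n^3 + 3 * (n * (lam * n^2)) := hfin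
    _ ≤ lam / (1/2 - 8 * c') * n^3 + 10 * ε * n^3 + 3 * (n * (lam * n^2)) := by
      gcongr
    _ = _ := by ring

end parts

end Pool.Agent.H.MP_9ec287_co.NearBip
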