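import Mathlib
import Pool.Agent.H.MP_9ec287_co.RegStep.PartA
import Pool.Agent.H.MP_9ec287_co.NearBip.Bridge

/-! Choice of the constants and the final statement. -/

namespace Pool.Agent.H.MP_9ec287_co.NearBip

open Finset Classical

theorem partA : ∀ c : ℝ, c < 1/16 → ∃ n₀ : ℕ, ∀ (V : Type) [Fintype V] [DecidableEq V]
    (G : SimpleGraph V), n₀ ≤ Fintype.card V → (Fintype.card V)^2 ≤ 2 * ee G univ univ →
    NB G (c * Fintype.card V) → (t3 G : ℝ) ≤ (Fintype.card V : ℝ)^3 / 10^9 := by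
  intro c hc
  set c₀ : ℝ := max c 0 with hc₀
  have hc₀0 : 0 ≤ c₀ := le_max_right _ _
  have hc₀1 : c₀ < 1/16 := max_lt hc (by norm_num)
  have hcc : c ≤ c₀ := le_max_left _ _
  set κ : ℝ := 1 - 16 * c₀ with hκ
  have hκ0 : 0 < κ := by rw [hκ]; linarith
  have hκ1 : κ ≤ 1 := by rw [hκ]; linarith
  set d : ℝ := κ / 10^11 with hd
  have hd0 : 0 < d := by rw [hd]; positivity
  have hd1 : d ≤ 1 / 10^11 := by rw [hd]; gcongr
  set ε : ℝ := κ * d^4 / 1000 with hε
  have hε0 : 0 < ε := by rw [hε]; positivity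
  have hd3 : d^3 ≤ 1 := pow_le_one₀ hd0.le (by linarith [show (1:ℝ)/10^11 ≤ 1 by norm_num])
  have hεd : ε ≤ d / 1000 := by
    rw [hε]
    have : κ * d^4 ≤ 1 * (1 * d) := by
      calc κ * d^4 = κ * (d^3 * d) := by ring
        _ ≤ 1 * (1 * d) := by gcongr
    linarith
  obtain ⟨l, hl⟩ := exists_nat_gt (2 / d)
  have hl0 : 0 < l := by
    have : (0:ℝ) < l := lt_trans (by positivity) hl
    exact_mod_cast this
  have hlr : (0:ℝ) < l := by exact_mod_cast hl0
  have hl2 : 2 / (l:ℝ) ≤ d := by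
    rw [div_le_iff₀ hlr]
    rw [div_lt_iff₀ hd0] at hl
    linarith
  obtain ⟨K, hK⟩ := exists_nat_gt (1 / ε)
  set M := SzemerediRegularity.bound ε l with hM
  refine ⟨max l (K * M), fun V _ _ G hn hee hNB => ?_⟩
  have hln : l ≤ Fintype.card V := (le_max_left _ _).trans hn
  obtain ⟨P, hP, hPl, hPM, hPU⟩ := szemeredi_regularity G hε0 hln
  have hbig : ∀ U ∈ P.parts, 1 ≤ ε * (U.card : ℝ) := by
    intro U hU
    have h1 := hP.average_le_card_part hU
    rw [card_univ] at h1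
    have h2 : K ≤ Fintype.card V / P.parts.card := by
      rw [Nat.le_div_iff_mul_le (by omega)]
      calc K * P.parts.card ≤ K * M := Nat.mul_le_mul_left _ hPM
        _ ≤ Fintype.card V := (le_max_right _ _).trans hn
    have h3 : (K : ℝ) ≤ U.card := by exact_mod_cast h2.trans h1
    rw [div_lt_iff₀ hε0] at hK
    nlinarith
  have hNB' : NB G (c₀ * Fintype.card V) := by
    intro x y z w h1 h2 h3 h4 h5 h6
    have := hNB x y z w h1 h2 h3 h4 h5 h6
    have h7 : c * (Fintype.card V : ℝ) ≤ c₀ * Fintype.card V :=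
      mul_le_mul_of_nonneg_right hcc (Nat.cast_nonneg _)
    linarith
  have hq : 30 * ε / d^4 = (3/100) * κ := by
    rw [hε]; field_simp; ring
  have h := tri_bound (P := P) G (ε := ε) (d := d) (c := c₀) hε0 (by linarith)
    (by linarith [show (1:ℝ)/10^11 ≤ 1 by norm_num]) hc₀0 hP hPU hl0 hPl hln hNB' hbig hee
    (by rw [hq]; linarith)
  rw [hq] at h
  refine h.trans ?_
  have e1 : 1/2 - 8 * (c₀ + 3/100 * κ) = (26/100) * κ := by rw [hκ]; ring
  rw [e1]
  have hlam : 4 * ε + d + 2 / l ≤ 3 * d := by linarith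
  have e2 : (4 * ε + d + 2 / l) / (26/100 * κ) ≤ 12 / 10^11 := by
    rw [div_le_iff₀ (by positivity)]
    have : κ = d * 10^11 := by rw [hd]; field_simp
    rw [this]
    linarith
  have e3 : (4 * ε + d + 2 / l) / (26/100 * κ) + 10 * ε + 3 * (4 * ε + d + 2 / l) ≤ 1 / 10^9 := by
    have : 10 * ε + 3 * (4 * ε + d + 2 / l) ≤ 10 * d := by linarith
    have h5 : (12:ℝ)/10^11 + 10 * (1/10^11) ≤ 1/10^9 := by norm_num
    linarith
  calc _ ≤ (1 / 10^9) * (Fintype.card V : ℝ)^3 := mul_le_mul_of_nonneg_right e3 (by positivity)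
    _ = _ := by ring

/-- Q1 of MP_9ec287_co -/
theorem main_Q1 : ∀ c : ℝ, c < 1/16 → ∃ N : ℕ, ∀ n : ℕ, N ≤ n → ∀ G : SimpleGraph (Fin n),
    G.edgeSet.ncard = qbar n + 1 → ∃ t : ℕ, c * n ≤ t ∧ (K22 t).IsContained G :=
  final_of_partA partA

end Pool.Agent.H.MP_9ec287_co.NearBip
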